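import Pool.Agent.Helper50.Drop.CLDefs

/-!
# Spaces of `C¹` loops (piece CL of `MP_51c806_gt`)
-/

set_option autoImplicit false

namespace Pool.Agent.Helper50.Drop

open Finset MeasureTheory
open scoped RealInnerProductSpace

theorem ext01_coe {V : Type*} [TopologicalSpace V] (f : C(unitInterval, V)) (t : unitInterval) :
    ext01 f (t : ℝ) = f t := by
  unfold ext01
  rw [Set.projIcc_of_mem zero_le_one t.2]

theorem ext01_of_mem {V : Type*} [TopologicalSpace V] (f : C(unitInterval, V)) {t : ℝ}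
    (ht : t ∈ Set.Icc (0 : ℝ) 1) : ext01 f t = f ⟨t, ht⟩ := by
  unfold ext01
  rw [Set.projIcc_of_mem zero_le_one ht]

theorem continuous_ext01 {V : Type*} [TopologicalSpace V] (f : C(unitInterval, V)) :
    Continuous (ext01 f) :=
  f.continuous.comp continuous_projIcc

theorem CL.norm_pos {n : ℕ} (γ : CL n) (t : unitInterval) : ‖γ.pos t‖ = 1 := γ.2.1 t

theorem CL.closed {n : ℕ} (γ : CL n) : γ.pos 1 = γ.pos 0 := γ.2.2.1

theorem CL.hasDeriv {n : ℕ} (γ : CL n) {t : ℝ} (ht : t ∈ Set.Icc (0 : ℝ) 1) :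
    HasDerivWithinAt (ext01 γ.pos) (ext01 γ.vel t) (Set.Icc 0 1) t := γ.2.2.2 t ht

theorem CL.ext {n : ℕ} {γ γ' : CL n} (h : ∀ t, γ.pos t = γ'.pos t) : γ = γ' := by
  have h1 : γ.pos = γ'.pos := ContinuousMap.ext h
  have h2 : γ.vel = γ'.vel := by
    refine ContinuousMap.ext fun t => ?_
    have d1 := γ.hasDeriv t.2
    have d2 := γ'.hasDeriv t.2
    rw [h1] at d1
    have h3 := (uniqueDiffOn_Icc one_pos (t : ℝ) t.2).eq_deriv _ d1 d2
    rwa [ext01_coe, ext01_coe] at h3
  exact Subtype.ext (Prod.ext h1 h2)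

theorem CL.continuous_pos {n : ℕ} : Continuous fun γ : CL n => γ.pos :=
  continuous_fst.comp continuous_subtype_val

theorem CL.continuous_vel {n : ℕ} : Continuous fun γ : CL n => γ.vel :=
  continuous_snd.comp continuous_subtype_val

/-- families of loops -/
theorem exists_family {n : ℕ} {Z : Type*} [TopologicalSpace Z] (Γ U : Z → ℝ → E n)
    (hΓ : Continuous fun p : Z × unitInterval => Γ p.1 p.2)
    (hU : Continuous fun p : Z × unitInterval => U p.1 p.2)
    (hn : ∀ z, ∀ t ∈ Set.Icc (0 : ℝ) 1, ‖Γ z t‖ = 1) (hc : ∀ z, Γ z 1 = Γ z 0)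
    (hd : ∀ z, ∀ t ∈ Set.Icc (0 : ℝ) 1, HasDerivWithinAt (Γ z) (U z t) (Set.Icc 0 1) t) :
    ∃ F : C(Z, CL n), ∀ z (t : unitInterval), (F z).pos t = Γ z t := by
  set f : C(Z, C(unitInterval, E n)) :=
    ContinuousMap.curry ⟨fun p : Z × unitInterval => Γ p.1 p.2, hΓ⟩ with hf
  set u : C(Z, C(unitInterval, E n)) :=
    ContinuousMap.curry ⟨fun p : Z × unitInterval => U p.1 p.2, hU⟩ with hu
  have hfz : ∀ z (t : unitInterval), f z t = Γ z t := fun z t => rfl
  have huz : ∀ z (t : unitInterval), u z t = U z t := fun z t => rfl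
  have hprop : ∀ z, (∀ t, ‖f z t‖ = 1) ∧ f z 1 = f z 0 ∧
      ∀ t ∈ Set.Icc (0 : ℝ) 1, HasDerivWithinAt (ext01 (f z)) (ext01 (u z) t) (Set.Icc 0 1) t := by
    intro z
    refine ⟨fun t => hn z t t.2, ?_, fun t ht => ?_⟩
    · rw [hfz, hfz]; simpa using hc z
    · have h1 : ext01 (u z) t = U z t := by rw [ext01_of_mem _ ht, huz]
      rw [h1]
      refine (hd z t ht).congr (fun s hs => ?_) ?_
      · rw [ext01_of_mem _ hs, hfz]
      · rw [ext01_of_mem _ ht, hfz]
  refine ⟨⟨fun z => ⟨(f z, u z), hprop z⟩, ?_⟩, fun z t => rfl⟩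
  exact Continuous.subtype_mk (f.continuous.prodMk u.continuous) _

/-- The class of the velocity. -/
noncomputable def velLp {n : ℕ} (f : C(unitInterval, E n)) : Vel n :=
  BoundedContinuousFunction.toLp 2 (volume.restrict (Set.Icc (0 : ℝ) 1)) ℝ
    ((BoundedContinuousFunction.mkOfCompact f).compContinuous
      ⟨Set.projIcc 0 1 zero_le_one, continuous_projIcc⟩)

theorem velLp_coe {n : ℕ} (f : C(unitInterval, E n)) :
    (velLp f : ℝ → E n) =ᵐ[volume.restrict (Set.Icc (0 : ℝ) 1)] ext01 f := by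
  unfold velLp
  filter_upwards [BoundedContinuousFunction.coeFn_toLp (p := 2)
    (μ := volume.restrict (Set.Icc (0 : ℝ) 1)) ℝ
    ((BoundedContinuousFunction.mkOfCompact f).compContinuous
      ⟨Set.projIcc 0 1 zero_le_one, continuous_projIcc⟩)] with t ht
  rw [ht]
  rfl

theorem continuous_velLp {n : ℕ} : Continuous (velLp : C(unitInterval, E n) → Vel n) := by
  unfold velLp
  refine (BoundedContinuousFunction.toLp 2 (volume.restrict (Set.Icc (0 : ℝ) 1)) ℝ).continuous.comp
    ((BoundedContinuousFunction.continuous_compContinuous _).comp ?_)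
  exact (ContinuousMap.isometryEquivBoundedOfCompact unitInterval (E n)).continuous

theorem curve_incl {n : ℕ} (γ : CL n) {t : ℝ} (ht : t ∈ Set.Icc (0 : ℝ) 1) :
    curve (γ.pos 0, velLp γ.vel) t = ext01 γ.pos t := by
  have h1 : ∫ s in (0 : ℝ)..t, (velLp γ.vel : ℝ → E n) s = ∫ s in (0 : ℝ)..t, ext01 γ.vel s := by
    refine intervalIntegral.integral_congr_ae_restrict ?_
    have h2 := velLp_coe γ.vel
    refine ae_mono (Measure.restrict_mono ?_ le_rfl) h2
    rw [Set.uIoc_of_le ht.1]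
    exact fun s hs => ⟨hs.1.le, hs.2.trans ht.2⟩
  have h3 : ∫ s in (0 : ℝ)..t, ext01 γ.vel s = ext01 γ.pos t - ext01 γ.pos 0 := by
    refine intervalIntegral.integral_eq_sub_of_hasDerivAt_of_le ht.1
      (continuous_ext01 _).continuousOn (fun s hs => ?_)
      ((continuous_ext01 _).intervalIntegrable _ _)
    have hs' : s ∈ Set.Ioo (0 : ℝ) 1 := ⟨hs.1, hs.2.trans_le ht.2⟩
    exact (γ.hasDeriv (Set.Ioo_subset_Icc_self hs')).hasDerivAt (Icc_mem_nhds hs'.1 hs'.2)
  unfold curve
  simp only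
  rw [h1, h3]
  have h4 : ext01 γ.pos 0 = γ.pos 0 := by
    have := ext01_coe γ.pos 0
    simpa using this
  rw [h4]
  abel

/-- the inclusion into the loop space -/
theorem exists_incl (n : ℕ) : ∃ J : C(CL n, LoopSpace n),
    (∀ (γ : CL n) (t : unitInterval), curve (J γ).1 t = γ.pos t) ∧
    ∀ γ : CL n, ∀ᵐ t ∂(volume.restrict (Set.Icc (0 : ℝ) 1)), (J γ).1.2 t = ext01 γ.vel t := by
  have hprop : ∀ γ : CL n, (∀ t ∈ Set.Icc (0 : ℝ) 1, ‖curve (γ.pos 0, velLp γ.vel) t‖ = 1) ∧
      curve (γ.pos 0, velLp γ.vel) 1 = (γ.pos 0, velLp γ.vel).1 := by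
    intro γ
    refine ⟨fun t ht => ?_, ?_⟩
    · rw [curve_incl γ ht, ext01_of_mem _ ht]
      exact γ.norm_pos _
    · rw [curve_incl γ (by simp)]
      have := ext01_coe γ.pos 1
      rw [Set.Icc.coe_one] at this
      rw [this, γ.closed]
  refine ⟨⟨fun γ => ⟨(γ.pos 0, velLp γ.vel), hprop γ⟩, ?_⟩, ?_, ?_⟩
  · refine Continuous.subtype_mk (Continuous.prodMk ?_ ?_) _
    · exact (continuous_eval_const (0 : unitInterval)).comp CL.continuous_pos
    · exact continuous_velLp.comp CL.continuous_vel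
  · intro γ t
    have := curve_incl γ t.2
    rw [ext01_coe] at this
    exact this
  · intro γ
    exact velLp_coe γ.vel

section contract

variable {n : ℕ}

/-- the curve before normalisation -/
noncomputable def preC (z : offA n × unitInterval) (t : ℝ) : E n :=
  (1 - (z.2 : ℝ)) • ext01 z.1.1.1.pos t - (z.2 : ℝ) • z.1.1.2

/-- its derivative -/
noncomputable def preV (z : offA n × unitInterval) (t : ℝ) : E n :=
  (1 - (z.2 : ℝ)) • ext01 z.1.1.1.vel t

theorem preC_ne {z : offA n × unitInterval} {t : ℝ} (ht : t ∈ Set.Icc (0 : ℝ) 1) :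
    preC z t ≠ 0 := by
  obtain ⟨⟨⟨γ, q⟩, hq, hoff⟩, h⟩ := z
  intro h0
  unfold preC at h0
  simp only at h0 hq hoff
  rw [ext01_of_mem _ ht] at h0
  have hγ := γ.norm_pos ⟨t, ht⟩
  have h1 : (1 - (h : ℝ)) • γ.pos ⟨t, ht⟩ = (h : ℝ) • q := sub_eq_zero.1 h0
  have h2 := congrArg norm h1
  rw [norm_smul, norm_smul, hγ, hq, Real.norm_of_nonneg (by linarith [h.2.2]),
    Real.norm_of_nonneg h.2.1] at h2
  have h3 : (h : ℝ) = 1 / 2 := by linarith
  rw [h3] at h1
  have h4 : γ.pos ⟨t, ht⟩ = q := by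
    have h5 : (2 : ℝ) • ((1 - (1 / 2 : ℝ)) • γ.pos ⟨t, ht⟩) = (2 : ℝ) • ((1 / 2 : ℝ) • q) := by
      rw [h1]
    rw [smul_smul, smul_smul] at h5
    norm_num at h5
    exact h5
  exact hoff _ h4

/-- the normalised curve -/
noncomputable def nrmC (z : offA n × unitInterval) (t : ℝ) : E n := ‖preC z t‖⁻¹ • preC z t

/-- its derivative -/
noncomputable def nrmV (z : offA n × unitInterval) (t : ℝ) : E n :=
  ‖preC z t‖⁻¹ • preV z t + (-(⟪preC z t, preV z t⟫ / ‖preC z t‖) / ‖preC z t‖ ^ 2) • preC z t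

theorem continuous_preC : Continuous fun p : (offA n × unitInterval) × unitInterval =>
    preC p.1 (p.2 : ℝ) := by
  unfold preC
  simp only [ext01_coe]
  have h1 : Continuous fun p : (offA n × unitInterval) × unitInterval => p.1.1.1.1.pos p.2 := by
    refine Continuous.eval ?_ continuous_snd
    exact CL.continuous_pos.comp (continuous_fst.comp (continuous_subtype_val.comp
      (continuous_fst.comp continuous_fst)))
  have h2 : Continuous fun p : (offA n × unitInterval) × unitInterval => p.1.1.1.2 :=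
    continuous_snd.comp (continuous_subtype_val.comp (continuous_fst.comp continuous_fst))
  have h3 : Continuous fun p : (offA n × unitInterval) × unitInterval => (p.1.2 : ℝ) :=
    continuous_subtype_val.comp (continuous_snd.comp continuous_fst)
  exact ((continuous_const.sub h3).smul h1).sub (h3.smul h2)

theorem continuous_preV : Continuous fun p : (offA n × unitInterval) × unitInterval =>
    preV p.1 (p.2 : ℝ) := by
  unfold preV
  simp only [ext01_coe]
  have h1 : Continuous fun p : (offA n × unitInterval) × unitInterval => p.1.1.1.1.vel p.2 := by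
    refine Continuous.eval ?_ continuous_snd
    exact CL.continuous_vel.comp (continuous_fst.comp (continuous_subtype_val.comp
      (continuous_fst.comp continuous_fst)))
  have h3 : Continuous fun p : (offA n × unitInterval) × unitInterval => (p.1.2 : ℝ) :=
    continuous_subtype_val.comp (continuous_snd.comp continuous_fst)
  exact (continuous_const.sub h3).smul h1

theorem continuous_nrmC : Continuous fun p : (offA n × unitInterval) × unitInterval =>
    nrmC p.1 (p.2 : ℝ) := by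
  unfold nrmC
  exact (continuous_preC.norm.inv₀ fun p => norm_ne_zero_iff.2 (preC_ne p.2.2)).smul
    continuous_preC

theorem continuous_nrmV : Continuous fun p : (offA n × unitInterval) × unitInterval =>
    nrmV p.1 (p.2 : ℝ) := by
  unfold nrmV
  have h0 : ∀ p : (offA n × unitInterval) × unitInterval, ‖preC p.1 (p.2 : ℝ)‖ ≠ 0 := fun p =>
    norm_ne_zero_iff.2 (preC_ne p.2.2)
  have h1 : Continuous fun p : (offA n × unitInterval) × unitInterval =>
      -(⟪preC p.1 (p.2 : ℝ), preV p.1 (p.2 : ℝ)⟫ / ‖preC p.1 (p.2 : ℝ)‖) /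
        ‖preC p.1 (p.2 : ℝ)‖ ^ 2 := by
    refine Continuous.div ?_ (continuous_preC.norm.pow 2) fun p => pow_ne_zero 2 (h0 p)
    exact ((continuous_preC.inner continuous_preV).div continuous_preC.norm h0).neg
  exact ((continuous_preC.norm.inv₀ h0).smul continuous_preV).add (h1.smul continuous_preC)

theorem hasDeriv_preC (z : offA n × unitInterval) {t : ℝ} (ht : t ∈ Set.Icc (0 : ℝ) 1) :
    HasDerivWithinAt (preC z) (preV z t) (Set.Icc 0 1) t := by
  unfold preC preV
  exact ((z.1.1.1.hasDeriv ht).const_smul (1 - (z.2 : ℝ))).sub_const _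

theorem hasDeriv_nrmC (z : offA n × unitInterval) {t : ℝ} (ht : t ∈ Set.Icc (0 : ℝ) 1) :
    HasDerivWithinAt (nrmC z) (nrmV z t) (Set.Icc 0 1) t := by
  have h1 := hasDeriv_preC z ht
  have h0 : ‖preC z t‖ ≠ 0 := norm_ne_zero_iff.2 (preC_ne ht)
  have h2 : HasDerivWithinAt (fun s => ‖preC z s‖) (⟪preC z t, preV z t⟫ / ‖preC z t‖)
      (Set.Icc 0 1) t := by
    have h3 := (h1.norm_sq).sqrt (pow_ne_zero 2 h0)
    have h4 : (fun s => Real.sqrt (‖preC z s‖ ^ 2)) = fun s => ‖preC z s‖ := by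
      funext s; exact Real.sqrt_sq (norm_nonneg _)
    simp only [h4] at h3
    rw [Real.sqrt_sq (norm_nonneg _)] at h3
    convert h3 using 1
    field_simp
  have h5 := h2.inv h0
  have h6 := h5.smul h1
  exact h6

end contract

/-- contraction of the complement of `q` to `-q` -/
theorem exists_contract (n : ℕ) : ∃ κ : C(offA n × unitInterval, CL n),
    (∀ a : offA n, κ (a, 0) = a.1.1) ∧
    (∀ a b : offA n, a.1.2 = b.1.2 → κ (a, 1) = κ (b, 1)) ∧
    (∀ (a : offA n) h t, (κ (a, h)).pos t ≠ a.1.2) := by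
  obtain ⟨κ, hκ⟩ := exists_family (n := n) (Z := offA n × unitInterval) nrmC nrmV
    continuous_nrmC continuous_nrmV
    (fun z t ht => by
      unfold nrmC
      rw [norm_smul, norm_inv, norm_norm, inv_mul_cancel₀ (norm_ne_zero_iff.2 (preC_ne ht))])
    (fun z => by
      have h1 : ext01 z.1.1.1.pos 1 = ext01 z.1.1.1.pos 0 := by
        have e1 := ext01_coe z.1.1.1.pos 1
        have e0 := ext01_coe z.1.1.1.pos 0
        rw [Set.Icc.coe_one] at e1
        rw [Set.Icc.coe_zero] at e0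
        rw [e1, e0, z.1.1.1.closed]
      unfold nrmC preC
      rw [h1])
    (fun z t ht => hasDeriv_nrmC z ht)
  refine ⟨κ, fun a => ?_, fun a b hab => ?_, fun a h t heq => ?_⟩
  · refine CL.ext fun t => ?_
    rw [hκ]
    unfold nrmC preC
    simp [ext01_coe, a.1.1.norm_pos]
  · refine CL.ext fun t => ?_
    rw [hκ, hκ]
    unfold nrmC preC
    simp [hab]
  · rw [hκ] at heq
    obtain ⟨⟨γ, q⟩, hq, hoff⟩ := a
    have hne := preC_ne (z := (⟨⟨γ, q⟩, hq, hoff⟩, h)) t.2
    unfold nrmC at heq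
    have h0 : ‖preC (n := n) (⟨⟨γ, q⟩, hq, hoff⟩, h) (t : ℝ)‖ ≠ 0 := norm_ne_zero_iff.2 hne
    set lam : ℝ := ‖preC (n := n) (⟨⟨γ, q⟩, hq, hoff⟩, h) (t : ℝ)‖ with hlam
    have hlam0 : 0 < lam := lt_of_le_of_ne (norm_nonneg _) (Ne.symm h0)
    have h1 : preC (n := n) (⟨⟨γ, q⟩, hq, hoff⟩, h) (t : ℝ) = lam • q := by
      have h2 := congrArg (fun v => lam • v) heq
      simp only [smul_smul, mul_inv_cancel₀ h0, one_smul] at h2
      exact h2
    unfold preC at h1
    simp only [ext01_coe] at h1 hq hoff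
    have h3 : (1 - (h : ℝ)) • γ.pos t = ((h : ℝ) + lam) • q := by
      rw [add_smul, ← h1]; abel
    have h4 := congrArg norm h3
    rw [norm_smul, norm_smul, γ.norm_pos, hq, Real.norm_of_nonneg (by linarith [h.2.2]),
      Real.norm_of_nonneg (by linarith [h.2.1])] at h4
    have h5 : (1 - (h : ℝ)) = (h : ℝ) + lam := by linarith
    rw [← h5] at h3
    have h6 : (1 - (h : ℝ)) ≠ 0 := by
      rw [h5]; linarith [h.2.1]
    have h7 : γ.pos t = q := smul_right_injective _ h6 h3
    exact hoff t h7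

end Pool.Agent.Helper50.Drop
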